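import Mathlib

set_option autoImplicit false

namespace Pool.Agent.Results.MP_d888c7_an.NoBVSolution

open MeasureTheory intervalIntegral Polynomial

noncomputable section

/-- the class `Ω` -/
def InOmega (ω : ℝ → ℝ) : Prop :=
  ContinuousOn ω (Set.Icc 0 1) ∧ (∀ x ∈ Set.Icc (0:ℝ) 1, 0 < ω x) ∧ ω 0 = 1 ∧
    IntervalIntegrable ω volume 0 1 ∧
    IntervalIntegrable (fun x => |1 - ω x| * x⁻¹) volume 0 1

/-- the sequence `λ_n` -/
def lam (ω₁ ω₂ : ℝ → ℝ) (n : ℕ) : ℝ :=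
  if n = 0 then 1 else
    (∫ x in (0:ℝ)..1, ω₁ x * x ^ (n - 1)) * (∫ x in (0:ℝ)..1, ω₂ x * x ^ (n - 1))⁻¹

/-- Riemann–Stieltjes sum of `f` against `β` over `[0,1]` for the division points
`t 0 ≤ t 1 ≤ ⋯ ≤ t N` and tags `ξ i`. -/
def RSsum (f β : ℝ → ℝ) (N : ℕ) (t ξ : ℕ → ℝ) : ℝ :=
  ∑ i ∈ Finset.range N, f (ξ i) * (β (t (i + 1)) - β (t i))

/-- `∫₀¹ f dβ = I` as a Riemann–Stieltjes integral: the sums converge to `I` as the mesh of the
tagged division of `[0,1]` tends to `0`. -/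
def HasRSIntegral (f β : ℝ → ℝ) (I : ℝ) : Prop :=
  ∀ ε > 0, ∃ δ > 0, ∀ (N : ℕ) (t ξ : ℕ → ℝ), t 0 = 0 → t N = 1 →
    (∀ i < N, t i ≤ ξ i ∧ ξ i ≤ t (i + 1) ∧ t (i + 1) - t i < δ) →
    |RSsum f β N t ξ - I| < ε

def B (x : ℝ) : ℝ := 6 * x ^ 2 - 8 * x ^ 3 + 3 * x ^ 4
def w (x : ℝ) : ℝ := 12 * x * (1 - x) ^ 2

def om1 (x : ℝ) : ℝ := 1 - 29 / 30 * B x
def om2 (x : ℝ) : ℝ := 1 - 14 / 15 * B x

lemma B_mono : MonotoneOn B (Set.Icc 0 1) := by
  intro x hx y hy hxy
  unfold B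
  obtain ⟨h0, -⟩ := hx
  obtain ⟨-, h1⟩ := hy
  -- B y - B x = (y-x) * (...)
  have hy0 : 0 ≤ y := h0.trans hxy
  have hx1 : x ≤ 1 := hxy.trans h1
  have key : 6 * y ^ 2 - 8 * y ^ 3 + 3 * y ^ 4 - (6 * x ^ 2 - 8 * x ^ 3 + 3 * x ^ 4) =
      (y - x) * (6 * (x + y) - 8 * (x ^ 2 + x * y + y ^ 2) + 3 * (x ^ 3 + x ^ 2 * y + x * y ^ 2 + y ^ 3)) := by
    ring
  have h2 : 0 ≤ 6 * (x + y) - 8 * (x ^ 2 + x * y + y ^ 2) + 3 * (x ^ 3 + x ^ 2 * y + x * y ^ 2 + y ^ 3) := by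
    nlinarith [mul_nonneg h0 (sub_nonneg.2 hx1), mul_nonneg hy0 (sub_nonneg.2 h1),
      mul_nonneg (mul_nonneg h0 (sub_nonneg.2 hx1)) (sub_nonneg.2 hx1),
      mul_nonneg (mul_nonneg hy0 (sub_nonneg.2 h1)) (sub_nonneg.2 h1),
      mul_nonneg (mul_nonneg h0 (sub_nonneg.2 h1)) (sub_nonneg.2 h1),
      mul_nonneg (mul_nonneg hy0 (sub_nonneg.2 hx1)) (sub_nonneg.2 hx1),
      mul_nonneg (mul_nonneg h0 (sub_nonneg.2 h1)) (sub_nonneg.2 hx1),
      mul_nonneg (mul_nonneg hy0 (sub_nonneg.2 h1)) (sub_nonneg.2 hx1)]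
  have := mul_nonneg (sub_nonneg.2 hxy) h2
  linarith

lemma B_bounds {x : ℝ} (hx : x ∈ Set.Icc (0:ℝ) 1) : 0 ≤ B x ∧ B x ≤ 1 := by
  have h1 := B_mono (Set.left_mem_Icc.2 zero_le_one) hx hx.1
  have h2 := B_mono hx (Set.right_mem_Icc.2 zero_le_one) hx.2
  have e0 : B 0 = 0 := by unfold B; norm_num
  have e1 : B 1 = 1 := by unfold B; norm_num
  rw [e0] at h1; rw [e1] at h2
  exact ⟨h1, h2⟩

lemma B_cont : Continuous B := by unfold B; fun_prop
lemma w_cont : Continuous w := by unfold w; fun_prop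
lemma om_cont (c : ℝ) : Continuous (fun x => 1 - c * B x) := by
  have := B_cont; fun_prop

lemma om_mem (c : ℝ) (h0 : 0 ≤ c) (h1 : c < 1) : InOmega (fun x => 1 - c * B x) := by
  refine ⟨(om_cont c).continuousOn, ?_, by simp [B], (om_cont c).intervalIntegrable _ _, ?_⟩
  · intro x hx
    have := B_bounds hx
    nlinarith [this.1, this.2]
  · have h : IntervalIntegrable (fun x : ℝ => c * (6 * x - 8 * x ^ 2 + 3 * x ^ 3)) volume 0 1 := by
      apply Continuous.intervalIntegrable; fun_prop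
    refine h.congr ?_
    intro x hx
    rw [Set.uIoc_of_le zero_le_one] at hx
    have hb := (B_bounds ⟨hx.1.le, hx.2⟩).1
    have : |1 - (1 - c * B x)| = c * B x := by
      rw [sub_sub_cancel, abs_of_nonneg (mul_nonneg h0 hb)]
    show c * (6 * x - 8 * x ^ 2 + 3 * x ^ 3) = |1 - (1 - c * B x)| * x⁻¹
    rw [this]
    have hx0 : x ≠ 0 := hx.1.ne'
    unfold B
    field_simp

lemma om_anti (c : ℝ) (h0 : 0 ≤ c) : AntitoneOn (fun x => 1 - c * B x) (Set.Icc 0 1) := by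
  intro x hx y hy hxy
  have := B_mono hx hy hxy
  show 1 - c * B y ≤ 1 - c * B x
  nlinarith

lemma ratio_anti : AntitoneOn (fun x => om1 x / om2 x) (Set.Icc 0 1) := by
  intro x hx y hy hxy
  have h := B_mono hx hy hxy
  have hbx := B_bounds hx
  have hby := B_bounds hy
  show om1 y / om2 y ≤ om1 x / om2 x
  unfold om1 om2
  rw [div_le_div_iff₀ (by linarith [hby.2]) (by linarith [hbx.2])]
  nlinarith

/-! ### Moments -/

/-- `n`-th moment of `(1-c) δ₁ + c w dx` -/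
def m (c : ℝ) (n : ℕ) : ℝ := (1 - c) + c * (24 / ((n + 2) * (n + 3) * (n + 4)))

lemma int_pow (k : ℕ) : ∫ x in (0:ℝ)..1, x ^ k = 1 / (k + 1) := by
  rw [integral_pow]; simp

lemma int_om (c : ℝ) (n : ℕ) : ∫ x in (0:ℝ)..1, (1 - c * B x) * x ^ n = m c (n + 1) / (n + 1) := by
  have h1 : ∀ x : ℝ, (1 - c * B x) * x ^ n = x ^ n - (6 * c) * x ^ (n + 2) + (8 * c) * x ^ (n + 3)
      - (3 * c) * x ^ (n + 4) := by
    intro x; unfold B; ring
  simp_rw [h1]
  have I : ∀ (a : ℝ) (k : ℕ), IntervalIntegrable (fun x : ℝ => a * x ^ k) volume 0 1 := by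
    intro a k; apply Continuous.intervalIntegrable; fun_prop
  have I0 : ∀ (k : ℕ), IntervalIntegrable (fun x : ℝ => x ^ k) volume 0 1 := by
    intro k; apply Continuous.intervalIntegrable; fun_prop
  rw [integral_sub (((I0 n).sub (I _ _)).add (I _ _)) (I _ _), integral_add ((I0 n).sub (I _ _)) (I _ _),
    integral_sub (I0 n) (I _ _)]
  simp only [intervalIntegral.integral_const_mul, int_pow]
  unfold m
  push_cast
  have e1 : (n : ℝ) + 1 ≠ 0 := by positivity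
  have e2 : (n : ℝ) + 2 + 1 ≠ 0 := by positivity
  have e3 : (n : ℝ) + 3 + 1 ≠ 0 := by positivity
  have e4 : (n : ℝ) + 4 + 1 ≠ 0 := by positivity
  have e5 : (n : ℝ) + 1 + 2 ≠ 0 := by positivity
  have e6 : (n : ℝ) + 1 + 3 ≠ 0 := by positivity
  have e7 : (n : ℝ) + 1 + 4 ≠ 0 := by positivity
  field_simp
  ring

lemma m_pos (c : ℝ) (h0 : 0 ≤ c) (h1 : c < 1) (n : ℕ) : 0 < m c n := by
  unfold m
  have : 0 ≤ c * (24 / (((n:ℝ) + 2) * (n + 3) * (n + 4))) := by positivity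
  linarith

lemma lam_mul (n : ℕ) : lam om1 om2 n * m (14/15) n = m (29/30) n := by
  unfold lam
  rcases Nat.eq_zero_or_pos n with rfl | hn
  · simp [m]; norm_num
  · rw [if_neg (by omega)]
    obtain ⟨k, rfl⟩ : ∃ k, n = k + 1 := ⟨n - 1, by omega⟩
    rw [Nat.add_sub_cancel]
    have h1 : (∫ x in (0:ℝ)..1, om1 x * x ^ k) = m (29/30) (k + 1) / (k + 1) := int_om (29/30) k
    have h2 : (∫ x in (0:ℝ)..1, om2 x * x ^ k) = m (14/15) (k + 1) / (k + 1) := int_om (14/15) k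
    rw [h1, h2]
    have h3 := (m_pos (14/15) (by norm_num) (by norm_num) (k + 1)).ne'
    have h4 : (k : ℝ) + 1 ≠ 0 := by positivity
    field_simp

/-! ### The operators -/

lemma int_w (n : ℕ) : ∫ x in (0:ℝ)..1, x ^ n * w x = 24 / ((n + 2) * (n + 3) * (n + 4)) := by
  have h1 : ∀ x : ℝ, x ^ n * w x = 12 * x ^ (n + 1) - 24 * x ^ (n + 2) + 12 * x ^ (n + 3) := by
    intro x; unfold w; ring
  simp_rw [h1]
  have I : ∀ (a : ℝ) (k : ℕ), IntervalIntegrable (fun x : ℝ => a * x ^ k) volume 0 1 := by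
    intro a k; apply Continuous.intervalIntegrable; fun_prop
  rw [integral_add ((I _ _).sub (I _ _)) (I _ _), integral_sub (I _ _) (I _ _)]
  simp only [intervalIntegral.integral_const_mul, int_pow]
  push_cast
  have e1 : (n : ℝ) + 1 + 1 ≠ 0 := by positivity
  have e2 : (n : ℝ) + 2 + 1 ≠ 0 := by positivity
  have e3 : (n : ℝ) + 3 + 1 ≠ 0 := by positivity
  have e4 : (n : ℝ) + 2 ≠ 0 := by positivity
  have e5 : (n : ℝ) + 3 ≠ 0 := by positivity
  have e6 : (n : ℝ) + 4 ≠ 0 := by positivity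
  field_simp
  ring

/-- `T_c (X^n) = m c n X^n` -/
def T (c : ℝ) : ℝ[X] →ₗ[ℝ] ℝ[X] := Polynomial.lsum (fun n => (m c n) • Polynomial.monomial n)

/-- the functional `X^n ↦ a n` -/
def L (a : ℕ → ℝ) : ℝ[X] →ₗ[ℝ] ℝ := Polynomial.lsum (fun n => (a n) • LinearMap.id)

lemma T_monomial (c : ℝ) (n : ℕ) (a : ℝ) : T c (monomial n a) = monomial n (m c n * a) := by
  unfold T
  rw [Polynomial.lsum_apply, Polynomial.sum_monomial_index]
  · simp [Polynomial.smul_monomial]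
  · simp

lemma L_monomial (b : ℕ → ℝ) (n : ℕ) (a : ℝ) : L b (monomial n a) = b n * a := by
  unfold L
  rw [Polynomial.lsum_apply, Polynomial.sum_monomial_index]
  · simp
  · simp

lemma T_eval (c : ℝ) (p : ℝ[X]) (y : ℝ) :
    (T c p).eval y = (1 - c) * p.eval y + c * ∫ x in (0:ℝ)..1, p.eval (x * y) * w x := by
  induction p using Polynomial.induction_on' with
  | add p q hp hq =>
    have I : ∀ p : ℝ[X], IntervalIntegrable (fun x : ℝ => p.eval (x * y) * w x) volume 0 1 := by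
      intro p
      apply Continuous.intervalIntegrable
      exact (p.continuous.comp (by fun_prop)).mul w_cont
    rw [map_add, eval_add, hp, hq]
    simp_rw [eval_add, add_mul]
    rw [integral_add (I p) (I q)]
    ring
  | monomial n a =>
    rw [T_monomial]
    simp only [eval_monomial]
    have h : ∀ x : ℝ, a * (x * y) ^ n * w x = (a * y ^ n) * (x ^ n * w x) := by
      intro x; rw [mul_pow]; ring
    simp_rw [h]
    rw [intervalIntegral.integral_const_mul, int_w]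
    unfold m
    ring

lemma L_T (p : ℝ[X]) : L (lam om1 om2) (T (14/15) p) =
    (1 - 29/30) * p.eval 1 + (29/30) * ∫ x in (0:ℝ)..1, p.eval x * w x := by
  have h := T_eval (29/30) p 1
  simp only [mul_one] at h
  rw [← h]
  clear h
  induction p using Polynomial.induction_on' with
  | add p q hp hq => simp only [map_add, eval_add, hp, hq]
  | monomial n a =>
    rw [T_monomial, T_monomial, L_monomial, eval_monomial, ← mul_assoc, lam_mul]
    simp

/-! ### The test function -/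

def z₀ : ℂ := ⟨1/2, Real.sqrt 143 / 2⟩

lemma z₀_sq : z₀ ^ 2 = z₀ - 36 := by
  have h : Real.sqrt 143 * Real.sqrt 143 = 143 := Real.mul_self_sqrt (by norm_num)
  apply Complex.ext
  · simp [z₀, pow_two]
    nlinarith
  · simp [z₀, pow_two]
    ring

lemma z₀_re : z₀.re = 1/2 := rfl

lemma z₀_prod : (z₀ + 2) * (z₀ + 3) * (z₀ + 4) = -336 := by
  have h := z₀_sq
  linear_combination (z₀ + 10) * h

lemma cont_cpow : Continuous (fun x : ℝ => (x : ℂ) ^ z₀) :=
  Complex.continuous_ofReal_cpow_const (by rw [z₀_re]; norm_num)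

lemma cpow_mul_pow (x : ℝ) (k : ℕ) (hk : k ≠ 0) : (x : ℂ) ^ z₀ * (x : ℂ) ^ k = (x : ℂ) ^ (z₀ + k) := by
  rcases eq_or_ne x 0 with rfl | hx
  · have h1 : z₀ + k ≠ 0 := by
      intro h
      have := congrArg Complex.re h
      simp [z₀_re] at this
      have hk' : (0:ℝ) ≤ k := Nat.cast_nonneg k
      linarith
    rw [Complex.ofReal_zero, Complex.zero_cpow h1, zero_pow hk, mul_zero]
  · have hx' : (x : ℂ) ≠ 0 := by exact_mod_cast hx
    rw [Complex.cpow_add _ _ hx', Complex.cpow_natCast]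

lemma int_cpow (k : ℕ) : ∫ x in (0:ℝ)..1, (x : ℂ) ^ (z₀ + k) = 1 / (z₀ + k + 1) := by
  have hre : (z₀ + k).re = 1/2 + k := by simp [z₀_re]
  have hk' : (0:ℝ) ≤ k := Nat.cast_nonneg k
  rw [integral_cpow (Or.inl (by rw [hre]; linarith))]
  have h1 : z₀ + k + 1 ≠ 0 := by
    intro h
    have := congrArg Complex.re h
    rw [Complex.add_re, hre] at this
    simp at this
    linarith
  rw [Complex.ofReal_zero, Complex.zero_cpow h1, Complex.ofReal_one, Complex.one_cpow, sub_zero]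

lemma int_cw : ∫ x in (0:ℝ)..1, (x : ℂ) ^ z₀ * (w x : ℂ) = -1/14 := by
  have h1 : ∀ x : ℝ, (x : ℂ) ^ z₀ * (w x : ℂ) =
      12 * (x : ℂ) ^ (z₀ + (1:ℕ)) - 24 * (x : ℂ) ^ (z₀ + (2:ℕ)) + 12 * (x : ℂ) ^ (z₀ + (3:ℕ)) := by
    intro x
    rw [← cpow_mul_pow x 1 (by norm_num), ← cpow_mul_pow x 2 (by norm_num),
      ← cpow_mul_pow x 3 (by norm_num)]
    unfold w
    push_cast
    ring
  simp_rw [h1]
  have I : ∀ (a : ℂ) (k : ℕ), IntervalIntegrable (fun x : ℝ => a * (x : ℂ) ^ (z₀ + k)) volume 0 1 := by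
    intro a k
    apply Continuous.intervalIntegrable
    have : Continuous (fun x : ℝ => (x : ℂ) ^ (z₀ + k)) :=
      Complex.continuous_ofReal_cpow_const (by
        have hk' : (0:ℝ) ≤ k := Nat.cast_nonneg k
        simp [z₀_re]; linarith)
    exact continuous_const.mul this
  rw [integral_add ((I _ _).sub (I _ _)) (I _ _), integral_sub (I _ _) (I _ _)]
  simp only [intervalIntegral.integral_const_mul, int_cpow]
  push_cast
  have hne : ∀ k : ℕ, z₀ + k + 1 ≠ 0 := by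
    intro k h
    have := congrArg Complex.re h
    have hk' : (0:ℝ) ≤ k := Nat.cast_nonneg k
    simp [z₀_re] at this
    linarith
  have e1 := hne 1
  have e2 := hne 2
  have e3 := hne 3
  push_cast at e1 e2 e3
  have hp := z₀_sq
  field_simp
  linear_combination (z₀ + 10) * hp

def f (x : ℝ) : ℝ := ((x : ℂ) ^ z₀).re

lemma f_cont : Continuous f := Complex.continuous_re.comp cont_cpow

lemma f_one : f 1 = 1 := by simp [f]

lemma int_fw (y : ℝ) (hy : 0 ≤ y) : ∫ x in (0:ℝ)..1, f (x * y) * w x = - f y / 14 := by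
  have h1 : ∀ x ∈ Set.uIcc (0:ℝ) 1, f (x * y) * w x = ((y : ℂ) ^ z₀ * ((x : ℂ) ^ z₀ * (w x : ℂ))).re := by
    intro x hx
    rw [Set.uIcc_of_le zero_le_one] at hx
    unfold f
    rw [Complex.ofReal_mul, Complex.mul_cpow_ofReal_nonneg hx.1 hy, ← mul_assoc,
      Complex.re_mul_ofReal, mul_comm ((x:ℂ)^z₀)]
  rw [integral_congr h1]
  have hc : Continuous (fun x : ℝ => (y : ℂ) ^ z₀ * ((x : ℂ) ^ z₀ * (w x : ℂ))) :=
    continuous_const.mul (cont_cpow.mul (Complex.continuous_ofReal.comp w_cont))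
  have h2 := Complex.reCLM.intervalIntegral_comp_comm (hc.intervalIntegrable (μ := volume) 0 1)
  simp only [Complex.reCLM_apply] at h2
  rw [h2, intervalIntegral.integral_const_mul, int_cw]
  unfold f
  have : (y:ℂ) ^ z₀ * (-1/14) = (y:ℂ)^z₀ * ((-1/14 : ℝ) : ℂ) := by push_cast; ring
  rw [this, Complex.re_mul_ofReal]
  ring

lemma w_nonneg {x : ℝ} (hx : x ∈ Set.Icc (0:ℝ) 1) : 0 ≤ w x := by
  unfold w
  have := hx.1
  positivity

lemma int_close (g h : ℝ → ℝ) (hg : Continuous g) (hh : Continuous h) (ε : ℝ)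
    (hgh : ∀ x ∈ Set.Icc (0:ℝ) 1, |g x - h x| ≤ ε) :
    |(∫ x in (0:ℝ)..1, g x * w x) - ∫ x in (0:ℝ)..1, h x * w x| ≤ ε := by
  have hsub := integral_sub (μ := volume) (a := (0:ℝ)) (b := 1) (f := fun x => g x * w x)
    (g := fun x => h x * w x) ((hg.mul w_cont).intervalIntegrable _ _)
    ((hh.mul w_cont).intervalIntegrable _ _)
  rw [← hsub]
  have h0 := int_w 0
  simp only [pow_zero, one_mul, Nat.cast_zero, zero_add] at h0
  norm_num at h0
  calc |∫ x in (0:ℝ)..1, (g x * w x - h x * w x)|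
      ≤ ∫ x in (0:ℝ)..1, |g x * w x - h x * w x| := abs_integral_le_integral_abs zero_le_one
    _ ≤ ∫ x in (0:ℝ)..1, ε * w x := by
        apply integral_mono_on zero_le_one
        · exact (((hg.mul w_cont).sub (hh.mul w_cont)).abs).intervalIntegrable _ _
        · exact (continuous_const.mul w_cont).intervalIntegrable _ _
        · intro x hx
          rw [← sub_mul, abs_mul, abs_of_nonneg (w_nonneg hx)]
          exact mul_le_mul_of_nonneg_right (hgh x hx) (w_nonneg hx)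
    _ = ε := by rw [intervalIntegral.integral_const_mul, h0, mul_one]

/-- the core: the functional `X^n ↦ λ_n` is not bounded for the sup norm on `[0,1]`. -/
theorem core (C : ℝ) (hC : ∀ (p : ℝ[X]) (M : ℝ), (∀ x ∈ Set.Icc (0:ℝ) 1, |p.eval x| ≤ M) →
    |L (lam om1 om2) p| ≤ C * M) : False := by
  have hC0 : 0 ≤ C := by
    have := hC 0 1 (by intro x _; simp)
    simpa using this
  set ε : ℝ := 1 / (56 * (1 + C)) with hε
  have hε0 : 0 < ε := by positivity
  obtain ⟨p, hp⟩ := exists_polynomial_near_of_continuousOn 0 1 f f_cont.continuousOn ε hε0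
  have hpf : ∀ x ∈ Set.Icc (0:ℝ) 1, |p.eval x - f x| ≤ ε := fun x hx => (hp x hx).le
  have h1 : ∀ y ∈ Set.Icc (0:ℝ) 1, |(T (14/15) p).eval y| ≤ ε := by
    intro y hy
    have hcl := int_close (fun x => p.eval (x * y)) (fun x => f (x * y))
      (p.continuous.comp (by fun_prop)) (f_cont.comp (by fun_prop)) ε (by
        intro x hx
        exact hpf (x * y) ⟨mul_nonneg hx.1 hy.1, mul_le_one₀ hx.2 hy.1 hy.2⟩)
    rw [int_fw y hy.1] at hcl
    rw [T_eval]
    have hy2 := hpf y hy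
    rw [abs_le] at hcl hy2 ⊢
    constructor <;> linarith [hcl.1, hcl.2, hy2.1, hy2.2]
  have h2 := hC _ _ h1
  rw [L_T] at h2
  have hcl := int_close (fun x => p.eval x) (fun x => f x) p.continuous f_cont ε hpf
  have h3 := int_fw 1 zero_le_one
  simp only [mul_one] at h3
  rw [h3, f_one] at hcl
  have h4 := hpf 1 ⟨zero_le_one, le_rfl⟩
  rw [f_one] at h4
  rw [abs_le] at hcl h4 h2
  have h5 : ε * (56 * (1 + C)) = 1 := by rw [hε]; field_simp
  nlinarith [hcl.1, hcl.2, h4.1, h4.2, h2.1, h2.2]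

/-! ### Riemann–Stieltjes -/

lemma RSsum_poly (a : ℕ → ℝ) (β : ℝ → ℝ) (h : ∀ n : ℕ, HasRSIntegral (fun x => x ^ n) β (a n))
    (p : ℝ[X]) : HasRSIntegral (fun x => p.eval x) β (L a p) := by
  induction p using Polynomial.induction_on' with
  | add p q hp hq =>
    intro ε hε
    obtain ⟨δ₁, hδ₁, H₁⟩ := hp (ε/2) (by positivity)
    obtain ⟨δ₂, hδ₂, H₂⟩ := hq (ε/2) (by positivity)
    refine ⟨min δ₁ δ₂, lt_min hδ₁ hδ₂, ?_⟩
    intro N t ξ h0 h1 hi
    have A := H₁ N t ξ h0 h1 (fun i hiN => ⟨(hi i hiN).1, (hi i hiN).2.1,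
      (hi i hiN).2.2.trans_le (min_le_left _ _)⟩)
    have B := H₂ N t ξ h0 h1 (fun i hiN => ⟨(hi i hiN).1, (hi i hiN).2.1,
      (hi i hiN).2.2.trans_le (min_le_right _ _)⟩)
    have e : RSsum (fun x => (p + q).eval x) β N t ξ =
        RSsum (fun x => p.eval x) β N t ξ + RSsum (fun x => q.eval x) β N t ξ := by
      unfold RSsum
      rw [← Finset.sum_add_distrib]
      apply Finset.sum_congr rfl
      intro i _
      simp only [eval_add]
      ring
    rw [e, map_add]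
    rw [abs_lt] at A B ⊢
    constructor <;> linarith [A.1, A.2, B.1, B.2]
  | monomial n c =>
    intro ε hε
    obtain ⟨δ, hδ, H⟩ := h n (ε / (|c| + 1)) (by positivity)
    refine ⟨δ, hδ, ?_⟩
    intro N t ξ h0 h1 hi
    have A := H N t ξ h0 h1 hi
    have e : RSsum (fun x => (monomial n c).eval x) β N t ξ = c * RSsum (fun x => x ^ n) β N t ξ := by
      unfold RSsum
      rw [Finset.mul_sum]
      apply Finset.sum_congr rfl
      intro i _
      simp only [eval_monomial]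
      ring
    rw [e, L_monomial, mul_comm (a n) c, ← mul_sub, abs_mul]
    have hc : |c| < |c| + 1 := by linarith
    have hc0 : 0 ≤ |c| := abs_nonneg c
    rw [lt_div_iff₀ (by positivity)] at A
    have := abs_nonneg (RSsum (fun x => x ^ n) β N t ξ - a n)
    nlinarith

lemma RS_bound (a : ℕ → ℝ) (β : ℝ → ℝ) (hβ : BoundedVariationOn β (Set.Icc 0 1))
    (h : ∀ n : ℕ, HasRSIntegral (fun x => x ^ n) β (a n)) (p : ℝ[X]) (M : ℝ)
    (hM : ∀ x ∈ Set.Icc (0:ℝ) 1, |p.eval x| ≤ M) :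
    |L a p| ≤ (eVariationOn β (Set.Icc 0 1)).toReal * M := by
  have hM0 : 0 ≤ M := (abs_nonneg _).trans (hM 0 ⟨le_rfl, zero_le_one⟩)
  apply le_of_forall_pos_le_add
  intro ε hε
  obtain ⟨δ, hδ, H⟩ := RSsum_poly a β h p ε hε
  obtain ⟨N, hN⟩ := exists_nat_gt (1 / δ)
  have hN0 : (0:ℝ) < N := lt_trans (by positivity) hN
  have hNδ : 1 / (N:ℝ) < δ := by
    rw [div_lt_iff₀ hN0]
    rw [div_lt_iff₀ hδ] at hN
    linarith
  -- uniform division
  set t : ℕ → ℝ := fun i => min ((i:ℝ) / N) 1 with ht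
  have tmono : Monotone t := by
    intro i j hij
    apply min_le_min_right
    have : (i:ℝ) ≤ j := by exact_mod_cast hij
    gcongr
  have tmem : ∀ i, t i ∈ Set.Icc (0:ℝ) 1 := by
    intro i
    exact ⟨le_min (by positivity) zero_le_one, min_le_right _ _⟩
  have t0 : t 0 = 0 := by simp [ht]
  have tN : t N = 1 := by simp [ht, div_self hN0.ne']
  have A := H N t t t0 tN (by
    intro i hi
    refine ⟨le_rfl, tmono (Nat.le_succ i), ?_⟩
    have hi1 : ((i:ℝ) + 1) ≤ N := by exact_mod_cast hi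
    have e1 : t i = (i:ℝ) / N := min_eq_left (by rw [div_le_one hN0]; linarith)
    have e2 : t (i + 1) = ((i:ℝ) + 1) / N := by
      show min (((i + 1 : ℕ) : ℝ) / N) 1 = _
      push_cast
      exact min_eq_left (by rw [div_le_one hN0]; linarith)
    rw [e1, e2, ← sub_div, add_sub_cancel_left]
    exact hNδ)
  have Bd : |RSsum (fun x => p.eval x) β N t t| ≤ (eVariationOn β (Set.Icc 0 1)).toReal * M := by
    unfold RSsum
    calc |∑ i ∈ Finset.range N, p.eval (t i) * (β (t (i + 1)) - β (t i))|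
        ≤ ∑ i ∈ Finset.range N, |p.eval (t i) * (β (t (i + 1)) - β (t i))| :=
          Finset.abs_sum_le_sum_abs _ _
      _ ≤ ∑ i ∈ Finset.range N, M * |β (t (i + 1)) - β (t i)| := by
          apply Finset.sum_le_sum
          intro i _
          rw [abs_mul]
          exact mul_le_mul_of_nonneg_right (hM _ (tmem i)) (abs_nonneg _)
      _ = (∑ i ∈ Finset.range N, |β (t (i + 1)) - β (t i)|) * M := by
          rw [← Finset.mul_sum, mul_comm]
      _ ≤ (eVariationOn β (Set.Icc 0 1)).toReal * M := by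
          apply mul_le_mul_of_nonneg_right _ hM0
          have hv := eVariationOn.sum_le (f := β) (s := Set.Icc (0:ℝ) 1) (n := N) tmono tmem
          have hv2 : (∑ i ∈ Finset.range N, |β (t (i + 1)) - β (t i)|) =
              (∑ i ∈ Finset.range N, edist (β (t (i + 1))) (β (t i))).toReal := by
            rw [ENNReal.toReal_sum (by intro i _; exact edist_ne_top _ _)]
            apply Finset.sum_congr rfl
            intro i _
            rw [edist_dist, ENNReal.toReal_ofReal dist_nonneg, Real.dist_eq]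
          rw [hv2]
          exact ENNReal.toReal_mono hβ hv
  rw [abs_lt] at A
  rw [abs_le] at Bd ⊢
  constructor <;> linarith [A.1, A.2, Bd.1, Bd.2]

theorem no_BV : ¬ ∃ β : ℝ → ℝ, BoundedVariationOn β (Set.Icc 0 1) ∧
    ∀ n : ℕ, HasRSIntegral (fun x => x ^ n) β (lam om1 om2 n) := by
  rintro ⟨β, hβ, h⟩
  exact core _ (fun p M hM => RS_bound _ β hβ h p M hM)

theorem no_mono : ¬ ∃ β : ℝ → ℝ, MonotoneOn β (Set.Icc 0 1) ∧
    ∀ n : ℕ, HasRSIntegral (fun x => x ^ n) β (lam om1 om2 n) := by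
  rintro ⟨β, hβ, h⟩
  apply no_BV
  refine ⟨β, ?_, h⟩
  have h1 := hβ.eVariationOn_eq (Set.left_mem_Icc.2 zero_le_one) (Set.right_mem_Icc.2 zero_le_one)
  rw [Set.inter_self] at h1
  unfold BoundedVariationOn
  rw [h1]
  exact ENNReal.ofReal_ne_top

lemma int_poly_L (μ ν : Measure ℝ) [IsFiniteMeasure μ] [IsFiniteMeasure ν] (a : ℕ → ℝ)
    (h : ∀ n : ℕ, a n = (∫ x in Set.Icc (0:ℝ) 1, x ^ n ∂μ) - ∫ x in Set.Icc (0:ℝ) 1, x ^ n ∂ν)
    (p : ℝ[X]) : L a p = (∫ x in Set.Icc (0:ℝ) 1, p.eval x ∂μ) - ∫ x in Set.Icc (0:ℝ) 1, p.eval x ∂ν := by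
  have I : ∀ (κ : Measure ℝ) [IsFiniteMeasure κ] (q : ℝ[X]),
      IntegrableOn (fun x => q.eval x) (Set.Icc (0:ℝ) 1) κ := by
    intro κ _ q
    exact q.continuous.continuousOn.integrableOn_compact isCompact_Icc
  induction p using Polynomial.induction_on' with
  | add p q hp hq =>
    rw [map_add, hp, hq]
    simp_rw [eval_add]
    rw [MeasureTheory.integral_add (I μ p) (I μ q), MeasureTheory.integral_add (I ν p) (I ν q)]
    ring
  | monomial n c =>
    rw [L_monomial, h n]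
    simp_rw [eval_monomial]
    rw [MeasureTheory.integral_const_mul, MeasureTheory.integral_const_mul]
    ring

theorem no_signed : ¬ ∃ μ ν : Measure ℝ, IsFiniteMeasure μ ∧ IsFiniteMeasure ν ∧
    ∀ n : ℕ, lam om1 om2 n =
      (∫ x in Set.Icc (0:ℝ) 1, x ^ n ∂μ) - ∫ x in Set.Icc (0:ℝ) 1, x ^ n ∂ν := by
  rintro ⟨μ, ν, hμ, hν, h⟩
  apply core (μ.real (Set.Icc 0 1) + ν.real (Set.Icc 0 1))
  intro p M hM
  rw [int_poly_L μ ν _ h p]
  have b : ∀ (κ : Measure ℝ) [IsFiniteMeasure κ],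
      |∫ x in Set.Icc (0:ℝ) 1, p.eval x ∂κ| ≤ M * κ.real (Set.Icc 0 1) := by
    intro κ _
    have := norm_setIntegral_le_of_norm_le_const (μ := κ) (s := Set.Icc (0:ℝ) 1) (C := M)
      (f := fun x => p.eval x) (measure_lt_top κ _) (fun x hx => by
        rw [Real.norm_eq_abs]; exact hM x hx)
    rwa [Real.norm_eq_abs] at this
  have b1 := b μ
  have b2 := b ν
  rw [abs_le] at b1 b2 ⊢
  constructor <;> nlinarith [b1.1, b1.2, b2.1, b2.2]

/-- Q2 (and hence Q1) has a negative answer. -/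
theorem result : ∃ ω₁ ω₂ : ℝ → ℝ,
    InOmega ω₁ ∧ InOmega ω₂ ∧
    AntitoneOn ω₁ (Set.Icc 0 1) ∧ AntitoneOn ω₂ (Set.Icc 0 1) ∧
    AntitoneOn (fun x => ω₁ x / ω₂ x) (Set.Icc 0 1) ∧
    (¬ ∃ β : ℝ → ℝ, BoundedVariationOn β (Set.Icc 0 1) ∧
      ∀ n : ℕ, HasRSIntegral (fun x => x ^ n) β (lam ω₁ ω₂ n)) ∧
    (¬ ∃ β : ℝ → ℝ, MonotoneOn β (Set.Icc 0 1) ∧
      ∀ n : ℕ, HasRSIntegral (fun x => x ^ n) β (lam ω₁ ω₂ n)) ∧
    (¬ ∃ μ ν : Measure ℝ, IsFiniteMeasure μ ∧ IsFiniteMeasure ν ∧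
      ∀ n : ℕ, lam ω₁ ω₂ n =
        (∫ x in Set.Icc (0:ℝ) 1, x ^ n ∂μ) - ∫ x in Set.Icc (0:ℝ) 1, x ^ n ∂ν) :=
  ⟨om1, om2, om_mem _ (by norm_num) (by norm_num), om_mem _ (by norm_num) (by norm_num),
    om_anti _ (by norm_num), om_anti _ (by norm_num), ratio_anti, no_BV, no_mono, no_signed⟩

end

end Pool.Agent.Results.MP_d888c7_an.NoBVSolution
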